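import Pool.Agent.U464.PD.Tup

/-!
# Almost prime tuples with restricted digits in arbitrary intervals
-/

set_option autoImplicit false

namespace Pool.Agent.U464.GD

open Finset Filter

lemma sum_windows (f : ℕ → ℕ) (x : ℕ) {t1 t2 : ℕ} (h : t1 ≤ t2) :
    ∑ n ∈ Ico (x * t1) (x * t2), f n = ∑ t ∈ Ico t1 t2, ∑ n ∈ Ico (x * t) (x * (t + 1)), f n := by
  induction t2, h using Nat.le_induction with
  | base => simp
  | succ s hs ih =>
    rw [Finset.sum_Ico_succ_top hs, ← ih,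
      Finset.sum_Ico_consecutive f (Nat.mul_le_mul_left x hs) (Nat.mul_le_mul_left x (Nat.le_succ s))]

/-- the number of the elements of `S` in `[u, v)` -/
noncomputable def cnt (S : Set ℕ) (u v : ℕ) : ℕ := {n | u ≤ n ∧ n < v ∧ n ∈ S}.ncard

open Classical in
lemma cnt_eq (S : Set ℕ) (u v : ℕ) : cnt S u v = ∑ n ∈ Ico u v, (if n ∈ S then 1 else 0) := by
  rw [← card_filter]
  unfold cnt
  rw [← Set.ncard_coe_finset]
  congr 1
  ext n
  simp only [Set.mem_ofPred_eq, coe_filter, mem_Ico]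
  tauto

lemma cnt_windows (S : Set ℕ) (x : ℕ) {t1 t2 : ℕ} (h : t1 ≤ t2) :
    cnt S (x * t1) (x * t2) = ∑ t ∈ Ico t1 t2, cnt S (x * t) (x * (t + 1)) := by
  classical
  rw [cnt_eq, sum_windows _ x h]
  exact sum_congr rfl fun t _ => (cnt_eq S _ _).symm

lemma cnt_mono (S : Set ℕ) {u v u' v' : ℕ} (h1 : u' ≤ u) (h2 : v ≤ v') : cnt S u v ≤ cnt S u' v' := by
  unfold cnt
  refine Set.ncard_le_ncard ?_ ((Set.finite_Iio v').subset fun n hn => hn.2.1)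
  rintro n ⟨a, b, c⟩
  exact ⟨h1.trans a, lt_of_lt_of_le b h2, c⟩

lemma cnt_lower (S : Set ℕ) (x u L : ℕ) (hx : 0 < x) (hL : 3 * x ≤ L) (m : ℝ) (hm : 0 ≤ m)
    (h : ∀ t, t ≤ u + L → m ≤ (cnt S (x * t) (x * (t + 1)) : ℝ)) :
    (L : ℝ) / x / 3 * m ≤ (cnt S u (u + L) : ℝ) := by
  obtain ⟨t1, ht1⟩ : ∃ t1, t1 = u / x + 1 := ⟨_, rfl⟩
  obtain ⟨t2, ht2⟩ : ∃ t2, t2 = (u + L) / x := ⟨_, rfl⟩
  have e1 : u < x * t1 := by rw [ht1]; exact Nat.lt_mul_div_succ u hx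
  have e2 : x * t2 ≤ u + L := by rw [ht2]; exact Nat.mul_div_le _ _
  have e3 : u + L < x * (t2 + 1) := by rw [ht2]; exact Nat.lt_mul_div_succ _ hx
  have e4 : x * t1 ≤ u + x := by
    rw [ht1, Nat.mul_add, mul_one]
    exact Nat.add_le_add_right (Nat.mul_div_le _ _) _
  have e5 : t1 ≤ t2 := by
    by_contra hcon
    push Not at hcon
    have := Nat.mul_le_mul_left x (Nat.succ_le_of_lt hcon)
    have e6 : x * t2.succ = x * (t2 + 1) := rfl
    omega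
  have hxr : (0 : ℝ) < x := by exact_mod_cast hx
  have r3 : (u : ℝ) + L < x * (t2 + 1) := by exact_mod_cast e3
  have r4 : (x : ℝ) * t1 ≤ u + x := by exact_mod_cast e4
  have rL : 3 * (x : ℝ) ≤ L := by exact_mod_cast hL
  have h1 : (L : ℝ) / x / 3 ≤ (t2 : ℝ) - t1 := by
    rw [div_div, div_le_iff₀ (by positivity)]
    nlinarith
  have h2 : ((t2 : ℝ) - t1) * m ≤ (cnt S (x * t1) (x * t2) : ℝ) := by
    rw [cnt_windows S x e5]
    push_cast
    calc ((t2 : ℝ) - t1) * m = ∑ t ∈ Ico t1 t2, m := by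
          rw [sum_const, Nat.card_Ico, nsmul_eq_mul, Nat.cast_sub e5]
      _ ≤ _ := sum_le_sum fun t ht => h t (by
          have := (mem_Ico.1 ht).2
          have h3 : t2 ≤ x * t2 := Nat.le_mul_of_pos_left t2 hx
          omega)
  have h3 : (cnt S (x * t1) (x * t2) : ℝ) ≤ cnt S u (u + L) := by
    exact_mod_cast cnt_mono S e1.le e2
  calc (L : ℝ) / x / 3 * m ≤ ((t2 : ℝ) - t1) * m := mul_le_mul_of_nonneg_right h1 hm
    _ ≤ _ := h2.trans h3

lemma cnt_upper (S : Set ℕ) (x u L : ℕ) (hx : 0 < x) (hL : 3 * x ≤ L) (M : ℝ) (hM : 0 ≤ M)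
    (h : ∀ t, t ≤ u + L → (cnt S (x * t) (x * (t + 1)) : ℝ) ≤ M) :
    (cnt S u (u + L) : ℝ) ≤ 2 * ((L : ℝ) / x) * M := by
  obtain ⟨t1, ht1⟩ : ∃ t1, t1 = u / x := ⟨_, rfl⟩
  obtain ⟨t2, ht2⟩ : ∃ t2, t2 = (u + L) / x := ⟨_, rfl⟩
  have e1 : x * t1 ≤ u := by rw [ht1]; exact Nat.mul_div_le _ _
  have e1' : u < x * (t1 + 1) := by rw [ht1]; exact Nat.lt_mul_div_succ u hx
  have e2 : x * t2 ≤ u + L := by rw [ht2]; exact Nat.mul_div_le _ _
  have e3 : u + L < x * (t2 + 1) := by rw [ht2]; exact Nat.lt_mul_div_succ _ hx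
  have e5 : t1 ≤ t2 + 1 := by
    rw [ht1, ht2]
    exact (Nat.div_le_div_right (Nat.le_add_right u L)).trans (Nat.le_succ _)
  have hxr : (0 : ℝ) < x := by exact_mod_cast hx
  have r1 : (u : ℝ) < x * (t1 + 1) := by exact_mod_cast e1'
  have r2 : (x : ℝ) * t2 ≤ u + L := by exact_mod_cast e2
  have rL : 3 * (x : ℝ) ≤ L := by exact_mod_cast hL
  have h1 : (t2 : ℝ) + 1 - t1 ≤ 2 * ((L : ℝ) / x) := by
    rw [← mul_div_assoc, le_div_iff₀ hxr]
    nlinarith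
  have h2 : (cnt S (x * t1) (x * (t2 + 1)) : ℝ) ≤ ((t2 : ℝ) + 1 - t1) * M := by
    rw [cnt_windows S x e5]
    push_cast
    calc _ ≤ ∑ t ∈ Ico t1 (t2 + 1), M := sum_le_sum fun t ht => h t (by
          have := (mem_Ico.1 ht).2
          have h3 : t2 ≤ x * t2 := Nat.le_mul_of_pos_left t2 hx
          omega)
      _ = _ := by rw [sum_const, Nat.card_Ico, nsmul_eq_mul, Nat.cast_sub e5]; push_cast; ring
  have h3 : (cnt S u (u + L) : ℝ) ≤ cnt S (x * t1) (x * (t2 + 1)) := by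
    exact_mod_cast cnt_mono S e1 e3.le
  exact h3.trans (h2.trans (mul_le_mul_of_nonneg_right h1 hM))

end Pool.Agent.U464.GD
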