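import Pool.Agent.U464.PD.Tup

/-!
# Linear polynomials at integers with prescribed leading digits and restricted last digits
-/

set_option autoImplicit false

namespace Pool.Agent.U464.GD

open Finset Filter Polynomial
open Pool.Agent.Y816.PD (WG NA NA_nonneg WG_bounds TP)
open Pool.Agent.U464.PD (rho V win roughP almostP V_tp tp sing nu phi card_big)

/-- the polynomial `q X + a` -/
noncomputable def lp (q a : ℕ) : ℤ[X] := C (q : ℤ) * X + C (a : ℤ)

lemma lp_eval (q a m : ℕ) : (lp q a).eval (m : ℤ) = ((q * m + a : ℕ) : ℤ) := by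
  unfold lp
  simp

lemma lp_deg (q a : ℕ) : (lp q a).natDegree ≤ 1 := by
  unfold lp
  refine (natDegree_add_le _ _).trans (max_le ?_ ?_)
  · refine (natDegree_C_mul_le _ _).trans ?_
    rw [natDegree_X]
  · rw [natDegree_C]
    exact Nat.zero_le _

lemma lp_dvd (q a m p : ℕ) : (p : ℤ) ∣ (lp q a).eval (m : ℤ) ↔ p ∣ q * m + a := by
  rw [lp_eval, Int.natCast_dvd_natCast]

lemma rho_dvd (q a p : ℕ) (hp : p.Prime) (hc : q.Coprime a) (h : p ∣ q) : rho (lp q a) p = 0 := by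
  classical
  unfold rho
  rw [card_eq_zero, filter_eq_empty_iff]
  intro j _ hj
  rw [lp_dvd] at hj
  have h1 : p ∣ a := (Nat.dvd_add_right (Dvd.dvd.mul_right h j)).1 hj
  have h2 := Nat.dvd_gcd h h1
  rw [hc] at h2
  exact hp.one_lt.ne' (Nat.dvd_one.1 h2)

lemma rho_ndvd (q a p : ℕ) (hp : p.Prime) (h : ¬ p ∣ q) : rho (lp q a) p = 1 := by
  classical
  have := Fact.mk hp
  unfold rho
  rw [card_eq_one]
  have hq : (q : ZMod p) ≠ 0 := fun h0 => h ((ZMod.natCast_eq_zero_iff q p).1 h0)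
  refine ⟨(-(a : ZMod p) / q).val, ?_⟩
  ext j
  rw [mem_filter, mem_range, mem_singleton, lp_dvd, ← ZMod.natCast_eq_zero_iff]
  push_cast
  constructor
  · rintro ⟨hj, hd⟩
    have h1 : (j : ZMod p) = -(a : ZMod p) / q := by
      rw [eq_div_iff hq]
      linear_combination hd
    rw [← h1, ZMod.val_natCast, Nat.mod_eq_of_lt hj]
  · rintro rfl
    refine ⟨ZMod.val_lt _, ?_⟩
    rw [ZMod.natCast_val, ZMod.cast_id', id, mul_div_cancel₀ _ hq, neg_add_cancel]

lemma mert (x : ℕ) : WG (TP {0} 0) x = ∏ p ∈ (Icc 1 x).filter Nat.Prime, (1 - 1 / (p : ℝ)) := by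
  classical
  have h1 := V_tp {0} x
  have hnu : ∀ p : ℕ, p.Prime → nu {0} p = 1 := by
    intro p hp
    unfold nu
    simp
  have hs : sing {0} x = 1 := by
    unfold sing
    apply prod_eq_one
    intro p hp
    have hpp := (mem_filter.1 hp).2
    rw [hnu p hpp, card_singleton, pow_one, Nat.cast_one]
    have h2 : (2 : ℝ) ≤ p := by exact_mod_cast hpp.two_le
    have h3 : (1 - 1 / (p : ℝ)) ≠ 0 := by
      have : 1 / (p : ℝ) ≤ 1 / 2 := one_div_le_one_div_of_le (by norm_num) h2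
      linarith
    exact mul_inv_cancel₀ h3
  rw [hs, card_singleton, pow_one, mul_one] at h1
  rw [← h1]
  unfold V
  apply prod_congr rfl
  intro p hp
  rw [Pool.Agent.U464.PD.rho_tp {0} p (mem_filter.1 hp).2, hnu p (mem_filter.1 hp).2, Nat.cast_one]

/-- the primes up to `x` which divide `q` -/
def PQ (q x : ℕ) : Finset ℕ := q.primeFactors.filter (fun p => p ≤ x)

lemma V_lp (q a x : ℕ) (hq : 0 < q) (hc : q.Coprime a) :
    V (lp q a) x = WG (TP {0} 0) x * ∏ p ∈ PQ q x, ((p : ℝ) / (p - 1)) := by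
  classical
  have e : PQ q x = ((Icc 1 x).filter Nat.Prime).filter (fun p => p ∣ q) := by
    ext p
    unfold PQ
    simp only [mem_filter, Nat.mem_primeFactors, mem_Icc]
    constructor
    · rintro ⟨⟨hp, hd, _⟩, hx⟩
      exact ⟨⟨⟨hp.one_lt.le, hx⟩, hp⟩, hd⟩
    · rintro ⟨⟨⟨_, hx⟩, hp⟩, hd⟩
      exact ⟨⟨hp, hd, hq.ne'⟩, hx⟩
  rw [mert, e, prod_filter (fun p => p ∣ q), ← prod_mul_distrib]
  unfold V
  apply prod_congr rfl
  intro p hp
  have hpp := (mem_filter.1 hp).2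
  have h2 : (2 : ℝ) ≤ p := by exact_mod_cast hpp.two_le
  have h3 : (p : ℝ) ≠ 0 := by linarith
  have h4 : (p : ℝ) - 1 ≠ 0 := by linarith
  split_ifs with h
  · rw [rho_dvd q a p hpp hc h]
    field_simp
    simp
  · rw [rho_ndvd q a p hpp h, Nat.cast_one, mul_one]

lemma fac_ge {p : ℕ} (hp : p.Prime) : (1 : ℝ) ≤ (p : ℝ) / (p - 1) ∧ (p : ℝ) / (p - 1) ≤ 2 := by
  have h2 : (2 : ℝ) ≤ p := by exact_mod_cast hp.two_le
  constructor
  · rw [le_div_iff₀ (by linarith)]
    linarith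
  · rw [div_le_iff₀ (by linarith)]
    linarith

lemma PQ_bounds (q x D : ℕ) (hq : 0 < q) (hx : 2 ≤ x) (hqx : q ≤ x ^ D) :
    (q : ℝ) / q.totient / 2 ^ D ≤ ∏ p ∈ PQ q x, ((p : ℝ) / (p - 1)) ∧
      ∏ p ∈ PQ q x, ((p : ℝ) / (p - 1)) ≤ (q : ℝ) / q.totient := by
  classical
  have hsplit : (∏ p ∈ PQ q x, ((p : ℝ) / (p - 1))) *
      ∏ p ∈ q.primeFactors.filter (fun p => x < p), ((p : ℝ) / (p - 1)) = (q : ℝ) / q.totient := by
    rw [phi q hq, ← prod_filter_mul_prod_filter_not q.primeFactors (fun p => p ≤ x)]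
    unfold PQ
    congr 2
    ext p
    simp
  have hF : ∀ p ∈ q.primeFactors.filter (fun p => x < p), p.Prime := fun p hp =>
    Nat.prime_of_mem_primeFactors (mem_filter.1 hp).1
  have h1 : (1 : ℝ) ≤ ∏ p ∈ q.primeFactors.filter (fun p => x < p), ((p : ℝ) / (p - 1)) :=
    Finset.prod_induction _ (fun y => (1 : ℝ) ≤ y) (fun a b ha hb => one_le_mul_of_one_le_of_one_le ha hb) le_rfl
      (fun p hp => (fac_ge (hF p hp)).1)
  have h2 : ∏ p ∈ q.primeFactors.filter (fun p => x < p), ((p : ℝ) / (p - 1)) ≤ 2 ^ D := by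
    calc ∏ p ∈ q.primeFactors.filter (fun p => x < p), ((p : ℝ) / (p - 1))
        ≤ ∏ p ∈ q.primeFactors.filter (fun p => x < p), (2 : ℝ) := by
          apply Finset.prod_le_prod
          · intro p hp
            exact le_trans zero_le_one (fac_ge (hF p hp)).1
          · intro p hp
            exact (fac_ge (hF p hp)).2
      _ = 2 ^ (q.primeFactors.filter (fun p => x < p)).card := by rw [prod_const]
      _ ≤ 2 ^ D := pow_le_pow_right₀ (by norm_num) (card_big q x D hq hx hqx)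
  have h3 : (0 : ℝ) < ∏ p ∈ PQ q x, ((p : ℝ) / (p - 1)) := by
    apply Finset.prod_pos
    intro p hp
    unfold PQ at hp
    exact lt_of_lt_of_le one_pos (fac_ge (Nat.prime_of_mem_primeFactors (mem_filter.1 hp).1)).1
  rw [← hsplit]
  constructor
  · rw [div_le_iff₀ (by positivity)]
    exact mul_le_mul_of_nonneg_left h2 h3.le
  · exact le_mul_of_one_le_right h3.le h1

/-- the `m` in `[b ^ K t, b ^ K (t + 1))` whose `i`-th digit in base `b` belongs to `A i` for all `i < K`, for which all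
prime factors of `q m + a` are larger than `b ^ (K / r)` -/
def roughL (q a b K t r : ℕ) (A : ℕ → Finset ℕ) : Set ℕ :=
  {m | b ^ K * t ≤ m ∧ m < b ^ K * (t + 1) ∧ (∀ i < K, m / b ^ i % b ∈ A i) ∧
    ∀ l : ℕ, l.Prime → l ∣ q * m + a → b ^ K < l ^ r}

/-- the elements `m` of `roughL` for which `q m + a` has at most `r` prime factors -/
def almostL (q a b K t r : ℕ) (A : ℕ → Finset ℕ) : Set ℕ :=
  {m | m ∈ roughL q a b K t r A ∧ (q * m + a).primeFactorsList.length ≤ r}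

/-- **Primes and almost primes in all progressions, with restricted quotients.** -/
theorem lin (D : ℕ) :
    ∃ δ : ℝ, 0 < δ ∧ ∃ r₀ : ℕ, 2 ≤ r₀ ∧ ∀ r : ℕ, r₀ ≤ r → ∀ b : ℕ, 2 ≤ b → ∃ κ C : ℝ, 0 < κ ∧ 0 < C ∧
      ∀ᶠ K : ℕ in atTop, ∀ q a t : ℕ, 0 < q → q.Coprime a → q * (b ^ K * (t + 1)) + a ≤ b ^ (D * K) →
        ∀ A : ℕ → Finset ℕ, (∀ i < K, A i ⊆ range b) → (b : ℝ) ^ K ≤ Real.exp (δ * K) * NA K A →
          ((∃ d ∈ A 0, (q * d + a).Coprime b) →
            κ * NA K A * ((q : ℝ) / q.totient / K) ≤ ((almostL q a b K t r A).ncard : ℝ)) ∧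
          ((roughL q a b K t r A).ncard : ℝ) ≤ C * NA K A * ((q : ℝ) / q.totient / K) := by
  classical
  obtain ⟨δ, hδ, r0, hr0, h⟩ := win 1 D le_rfl
  refine ⟨δ, hδ, r0, hr0, fun r hr b hb => ?_⟩
  obtain ⟨κ, C, hκ, hC, h1⟩ := h r hr b hb
  obtain ⟨v, Cv, hv, hCv, hW⟩ := WG_bounds {0} (fun p hp => ⟨1, fun h hh hd => by
    rw [mem_singleton] at hh
    subst hh
    exact hp.one_lt.ne' (Nat.dvd_one.1 hd)⟩) 1 (card_singleton 0) b hb
  refine ⟨κ * v / 2 ^ D, C * Cv, by positivity, by positivity, ?_⟩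
  filter_upwards [h1, hW, eventually_ge_atTop 1] with K hK hWK hK1 q a t hq hc hqt A hA hprod
  have hNA := NA_nonneg K A
  have hbK2 : 2 ≤ b ^ K := by
    calc 2 = 2 ^ 1 := by norm_num
      _ ≤ 2 ^ K := Nat.pow_le_pow_right (by norm_num) (by omega)
      _ ≤ b ^ K := Nat.pow_le_pow_left hb K
  have hqx : q ≤ (b ^ K) ^ D := by
    rw [← pow_mul, mul_comm K D]
    refine le_trans ?_ hqt
    refine le_trans ?_ (Nat.le_add_right _ _)
    exact Nat.le_mul_of_pos_right q (by positivity)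
  have hadm : ∀ p : ℕ, p.Prime → ∃ n : ℕ, ¬ (p : ℤ) ∣ (lp q a).eval (n : ℤ) := by
    intro p hp
    by_contra hcon
    push Not at hcon
    have e0 := (lp_dvd q a 0 p).1 (hcon 0)
    have e1 := (lp_dvd q a 1 p).1 (hcon 1)
    rw [mul_zero, zero_add] at e0
    rw [mul_one] at e1
    have e2 : p ∣ q := (Nat.dvd_add_left e0).1 e1
    have e3 := Nat.dvd_gcd e2 e0
    rw [hc] at e3
    exact hp.one_lt.ne' (Nat.dvd_one.1 e3)
  have hsize : ∀ m : ℕ, b ^ K * t ≤ m → m < b ^ K * (t + 1) →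
      ((lp q a).eval (m : ℤ)).natAbs ≤ b ^ (D * K) := by
    intro m _ hm
    rw [lp_eval, Int.natAbs_natCast]
    exact le_trans (Nat.add_le_add_right (Nat.mul_le_mul_left q hm.le) a) hqt
  obtain ⟨h2, h3⟩ := hK (lp q a) (lp_deg q a) hadm t hsize A hA hprod
  obtain ⟨hW1, hW2⟩ := hWK 0
  rw [pow_one] at hW1 hW2
  rw [V_lp q a _ hq hc] at h2 h3
  obtain ⟨hP1, hP2⟩ := PQ_bounds q (b ^ K) D hq hbK2 hqx
  have hK0 : (0 : ℝ) < K := by exact_mod_cast (by omega : 0 < K)
  have hphi : (0 : ℝ) ≤ (q : ℝ) / q.totient := by positivity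
  have hWG0 : 0 ≤ WG (TP {0} 0) (b ^ K) := le_trans (by positivity) hW1
  constructor
  · rintro ⟨d, hd, hcop⟩
    have h4 := h2 ⟨d, hd, by rw [lp_eval, Int.natAbs_natCast]; exact hcop⟩
    have h5 : almostP (lp q a) b K t r A = almostL q a b K t r A := by
      ext m
      unfold almostP almostL roughP roughL
      simp only [Set.mem_ofPred_eq, lp_dvd]
      rw [lp_eval, Int.natAbs_natCast]
    rw [h5] at h4
    refine le_trans ?_ h4
    calc κ * v / 2 ^ D * NA K A * ((q : ℝ) / q.totient / K) =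
        κ * NA K A * ((v / K) * ((q : ℝ) / q.totient / 2 ^ D)) := by ring
      _ ≤ _ := by
          apply mul_le_mul_of_nonneg_left _ (by positivity)
          exact mul_le_mul hW1 hP1 (by positivity) hWG0
  · have h5 : roughP (lp q a) b K t r A = roughL q a b K t r A := by
      ext m
      unfold roughP roughL
      simp only [Set.mem_ofPred_eq, lp_dvd]
    rw [h5] at h3
    refine h3.trans ?_
    calc C * NA K A * (WG (TP {0} 0) (b ^ K) * ∏ p ∈ PQ q (b ^ K), ((p : ℝ) / (p - 1)))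
        ≤ C * NA K A * ((Cv / K) * ((q : ℝ) / q.totient)) := by
          apply mul_le_mul_of_nonneg_left _ (by positivity)
          exact mul_le_mul hW2 hP2 (Finset.prod_nonneg fun p hp => le_trans zero_le_one
            (fac_ge (Nat.prime_of_mem_primeFactors (mem_filter.1 hp).1)).1) (by positivity)
      _ = _ := by ring

end Pool.Agent.U464.GD
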