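import Pool.Agent.U464.PD.Win
import Pool.Agent.W123.RU.PolyV

/-!
# Integers with restricted digits near prime constellations
-/

set_option autoImplicit false

namespace Pool.Agent.U464.GD

open Finset Filter Polynomial Topology
open Pool.Agent.U464.PD (rho V roughP WG_win win ncard_window)
open Pool.Agent.Y816.PD (WG ND NA NA_nonneg dset card_dset cd)

/-- the product of the `X + e i - h` -/
noncomputable def G {k : ℕ} (e : Fin k → ℕ) (h : ℕ) : ℤ[X] := ∏ i, (X + Polynomial.C ((e i : ℤ) - h))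

lemma G_eval {k : ℕ} (e : Fin k → ℕ) (h : ℕ) (z : ℤ) : (G e h).eval z = ∏ i, (z + ((e i : ℤ) - h)) := by
  unfold G
  rw [eval_prod]
  refine prod_congr rfl fun i _ => ?_
  rw [eval_add, eval_X, eval_C]

lemma G_deg {k : ℕ} (e : Fin k → ℕ) (h : ℕ) : (G e h).natDegree ≤ k := by
  unfold G
  refine (natDegree_prod_le _ _).trans ?_
  refine (sum_le_card_nsmul _ _ 1 fun i _ => ?_).trans (by simp)
  rw [natDegree_X_add_C]

lemma V_shift {k : ℕ} (e : Fin k → ℕ) (h x : ℕ) : V (G e h) x = V (G e 0) x := by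
  rw [← WG_win (G e h) h x, ← WG_win (G e 0) 0 x]
  congr 1
  funext j
  rw [G_eval, G_eval]
  refine prod_congr rfl fun i _ => ?_
  push_cast
  ring

lemma V_low {k : ℕ} (e : Fin k → ℕ) (he : Function.Injective e)
    (hadm : ∀ p : ℕ, p.Prime → ∃ n : ℕ, ∀ i, ¬ p ∣ n + e i) :
    ∃ B : ℝ, 0 < B ∧ ∀ y : ℕ, 3 ≤ y → V (G e 0) y ≤ B / Real.log y ^ k := by
  classical
  obtain ⟨v, B, hv, hB, h⟩ := Pool.Agent.W123.RU.Poly.V_bounds (fun i : Fin k => X + Polynomial.C (e i : ℤ))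
    ⟨fun i => (monic_X_add_C _).irreducible_of_degree_eq_one (degree_X_add_C _),
      fun i => by rw [natDegree_X_add_C]; norm_num,
      fun i => by rw [leadingCoeff_X_add_C]; norm_num,
      fun i j hij => he (by
        have h1 := congrArg (fun f : ℤ[X] => f.eval 0) hij
        simp only [eval_add, eval_X, eval_C, zero_add] at h1
        exact_mod_cast h1),
      fun p hp => by
        obtain ⟨n, hn⟩ := hadm p hp
        refine ⟨n, fun i => ?_⟩
        rw [eval_add, eval_X, eval_C]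
        exact_mod_cast hn i⟩
  refine ⟨B, hB, fun y hy => ?_⟩
  have h1 := (h y hy).2
  rw [Fintype.card_fin] at h1
  refine le_trans (le_of_eq ?_) h1
  unfold V Pool.Agent.W123.RP.Vq Pool.Agent.H373R2.T7.pz
  refine prod_congr rfl fun p hp => ?_
  have hpp := (mem_filter.1 hp).2
  have e1 : rho (G e 0) p = Pool.Agent.H373R2.T7.nuB
      (Pool.Agent.W123.RU.Poly.Q (fun i : Fin k => X + Polynomial.C (e i : ℤ))) p := by
    unfold rho Pool.Agent.H373R2.T7.nuB Pool.Agent.W123.RU.Poly.Q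
    congr 1
    ext j
    simp only [mem_filter, and_congr_right_iff]
    intro _
    rw [G_eval, (Nat.prime_iff_prime_int.1 hpp).dvd_finsetProd_iff]
    simp
  rw [e1]

/-- the growth of powers and exponentials -/
lemma grow (k : ℕ) : ∀ᶠ K : ℕ in atTop, 3 * (K : ℝ) ^ (2 * k) ≤ Real.exp (K * (Real.log 2 / 4)) := by
  have hl : 0 < Real.log 2 / 4 := by positivity
  have h1 := (Real.tendsto_pow_mul_exp_neg_atTop_nhds_zero (2 * k)).comp
    ((tendsto_natCast_atTop_atTop (R := ℝ)).atTop_mul_const hl)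
  have h2 := h1.eventually_lt_const (show (0 : ℝ) < (Real.log 2 / 4) ^ (2 * k) / 3 by positivity)
  filter_upwards [h2] with K hK
  simp only [Function.comp_apply] at hK
  rw [Real.exp_neg, mul_pow, ← div_eq_mul_inv, div_lt_div_iff₀ (Real.exp_pos _) (by norm_num)] at hK
  have hp : (0 : ℝ) < (Real.log 2 / 4) ^ (2 * k) := by positivity
  nlinarith

/-- the integers in the window with the prescribed digits -/
def Dig (b K s : ℕ) (A : ℕ → Finset ℕ) : Set ℕ :=
  {m | b ^ K * s ≤ m ∧ m < b ^ K * (s + 1) ∧ ∀ i < K, m / b ^ i % b ∈ A i}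

lemma Dig_finite (b K s : ℕ) (A : ℕ → Finset ℕ) : (Dig b K s A).Finite :=
  (Set.finite_Iio (b ^ K * (s + 1))).subset fun _ h => h.2.1

lemma Dig_card (b K s : ℕ) (hb : 0 < b) (A : ℕ → Finset ℕ) (hA : ∀ i < K, A i ⊆ range b) :
    ((Dig b K s A).ncard : ℝ) = NA K A := by
  classical
  have h1 := ncard_window b K s hb A Set.univ
  have h2 : Dig b K s A = {m : ℕ | b ^ K * s ≤ m ∧ m < b ^ K * (s + 1) ∧ (∀ i < K, m / b ^ i % b ∈ A i) ∧
      m ∈ Set.univ} := by
    unfold Dig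
    simp
  rw [h2, h1]
  have h3 : ND b K A {j | b ^ K * s + j ∈ Set.univ} = (dset b K A).card := by
    unfold ND dset
    congr 1
    ext n
    simp
  rw [h3, card_dset K hb hA]
  unfold cd NA
  push_cast
  simp

set_option maxHeartbeats 4000000 in
theorem near (k D : ℕ) (hk : 1 ≤ k) (e : Fin k → ℕ) (he : Function.Injective e)
    (hadm : ∀ p : ℕ, p.Prime → ∃ n : ℕ, ∀ i, ¬ p ∣ n + e i) :
    ∃ δ : ℝ, 0 < δ ∧ ∀ b : ℕ, 2 ≤ b → ∃ C : ℝ, 0 < C ∧ ∀ᶠ K : ℕ in atTop, ∀ s : ℕ, s ≤ b ^ (D * K) →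
      ∀ A : ℕ → Finset ℕ, (∀ i < K, A i ⊆ range b) → (b : ℝ) ^ K ≤ Real.exp (δ * K) * NA K A →
        ∀ H : ℕ, 1 ≤ H → (({m | m ∈ Dig b K s A ∧ ∃ h, h ≤ H ∧ h ≤ m ∧ ∀ i, (m - h + e i).Prime}.ncard : ℕ) : ℝ) ≤
          C * H * NA K A / (K : ℝ) ^ k := by
  classical
  obtain ⟨c, hc, r, hr, h⟩ := win k ((D + 3) * k) hk
  obtain ⟨B, hB, hV⟩ := V_low e he hadm
  have hl2 : 0 < Real.log 2 := Real.log_pos (by norm_num)
  refine ⟨min c (Real.log 2 / 4), lt_min hc (by positivity), fun b hb => ?_⟩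
  obtain ⟨κ, C, hκ, hC, h1⟩ := h r le_rfl b hb
  have hb' : (2 : ℝ) ≤ b := by exact_mod_cast hb
  have hlb : 0 < Real.log b := Real.log_pos (by linarith)
  have hlb2 : Real.log 2 ≤ Real.log b := Real.log_le_log (by norm_num) hb'
  refine ⟨1 + 2 * (C * B / Real.log b ^ k), by positivity, ?_⟩
  have hev : ∀ᶠ K : ℕ in atTop, (∑ i, e i) + K ^ k + 1 ≤ b ^ K := by
    have h2 := grow k
    have h3 := eventually_ge_atTop (2 * (∑ i, e i) + 2)
    filter_upwards [h2, h3, eventually_ge_atTop 1] with K h2 h3 h4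
    have h5 : (K : ℝ) ^ k ≤ (K : ℝ) ^ (2 * k) := by
      apply pow_le_pow_right₀ (by exact_mod_cast h4) (by omega)
    have h6 : Real.exp (K * (Real.log 2 / 4)) ≤ (2 : ℝ) ^ K := by
      rw [← Real.rpow_natCast, Real.rpow_def_of_pos (by norm_num)]
      apply Real.exp_le_exp.2
      have : (0 : ℝ) ≤ K := Nat.cast_nonneg _
      nlinarith
    have h7 : 3 * ((K ^ k : ℕ) : ℝ) ≤ ((2 ^ K : ℕ) : ℝ) := by
      push_cast
      linarith
    have h8 : 3 * K ^ k ≤ 2 ^ K := by exact_mod_cast h7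
    have h9 : K ≤ 2 ^ K := Nat.lt_two_pow_self.le
    have h10 : 2 ^ K ≤ b ^ K := Nat.pow_le_pow_left hb K
    have h11 : 1 ≤ K ^ k := Nat.one_le_pow _ _ h4
    omega
  filter_upwards [h1, grow k, hev, eventually_ge_atTop 2] with K hK hg hE hK2 s hs A hA hprod H hH
  have hK0 : (0 : ℝ) < K := by exact_mod_cast (by omega : 0 < K)
  have hK1 : (1 : ℝ) ≤ K := by exact_mod_cast (by omega : 1 ≤ K)
  have hNA := NA_nonneg K A
  have hKk : (0 : ℝ) < (K : ℝ) ^ k := by positivity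
  have hH1 : (1 : ℝ) ≤ H := by exact_mod_cast hH
  obtain ⟨T, hT⟩ : ∃ T : ℝ, T = C * B / Real.log b ^ k := ⟨_, rfl⟩
  have hT0 : 0 ≤ T := by rw [hT]; positivity
  rw [← hT]
  have hsub0 : {m | m ∈ Dig b K s A ∧ ∃ h, h ≤ H ∧ h ≤ m ∧ ∀ i, (m - h + e i).Prime} ⊆ Dig b K s A :=
    fun m hm => hm.1
  rcases Nat.lt_or_ge H (K ^ k) with hHK | hHK
  swap
  · -- trivial range
    have h2 := Set.ncard_le_ncard hsub0 (Dig_finite b K s A)
    have h3 : (({m | m ∈ Dig b K s A ∧ ∃ h, h ≤ H ∧ h ≤ m ∧ ∀ i, (m - h + e i).Prime}.ncard : ℕ) : ℝ) ≤ NA K A := by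
      rw [← Dig_card b K s (by omega) A hA]
      exact_mod_cast h2
    refine h3.trans ?_
    rw [le_div_iff₀ hKk]
    have h4 : (K : ℝ) ^ k ≤ H := by exact_mod_cast hHK
    calc NA K A * (K : ℝ) ^ k ≤ NA K A * H := mul_le_mul_of_nonneg_left h4 hNA
      _ = 1 * H * NA K A := by ring
      _ ≤ (1 + 2 * T) * H * NA K A := by
        apply mul_le_mul_of_nonneg_right _ hNA
        apply mul_le_mul_of_nonneg_right _ (by linarith)
        linarith
  -- the main range
  have hbK1 : 1 ≤ b ^ K := Nat.one_le_pow _ _ (by omega)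
  have hcov : {m | m ∈ Dig b K s A ∧ ∃ h, h ≤ H ∧ h ≤ m ∧ ∀ i, (m - h + e i).Prime} ⊆
      (↑(range (K ^ k + Nat.sqrt (b ^ K) + 1)) : Set ℕ) ∪ ⋃ h ∈ (range (H + 1) : Finset ℕ), roughP (G e h) b K s r A := by
    rintro m ⟨hm, h, hh, hhm, hp⟩
    by_cases hsm : m < K ^ k + Nat.sqrt (b ^ K) + 1
    · left
      exact mem_coe.2 (mem_range.2 hsm)
    · right
      rw [Set.mem_iUnion₂]
      refine ⟨h, mem_range.2 (by omega), hm.1, hm.2.1, hm.2.2, fun q hq hd => ?_⟩
      rw [G_eval, (Nat.prime_iff_prime_int.1 hq).dvd_finsetProd_iff] at hd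
      obtain ⟨i, -, hi⟩ := hd
      have h2 : (m : ℤ) + ((e i : ℤ) - h) = ((m - h + e i : ℕ) : ℤ) := by
        push_cast [Nat.cast_sub hhm]
        ring
      rw [h2, Int.natCast_dvd_natCast] at hi
      have h3 : q = m - h + e i := (Nat.prime_dvd_prime_iff_eq hq (hp i)).1 hi
      have h4 : Nat.sqrt (b ^ K) < q := by omega
      have h5 : b ^ K < q * q := Nat.sqrt_lt.1 h4
      calc b ^ K < q * q := h5
        _ = q ^ 2 := by ring
        _ ≤ q ^ r := Nat.pow_le_pow_right hq.pos hr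
  have hfin : ∀ h : ℕ, (roughP (G e h) b K s r A).Finite := fun h =>
    (Set.finite_Iio (b ^ K * (s + 1))).subset fun m hm => hm.2.1
  have hfinU : ((↑(range (K ^ k + Nat.sqrt (b ^ K) + 1)) : Set ℕ) ∪
      ⋃ h ∈ (range (H + 1) : Finset ℕ), roughP (G e h) b K s r A).Finite :=
    (Finset.finite_toSet _).union (Set.Finite.biUnion (Finset.finite_toSet _) fun h _ => hfin h)
  have hn1 := (Set.ncard_le_ncard hcov hfinU).trans (Set.ncard_union_le _ _)
  have hn2 : (⋃ h ∈ (range (H + 1) : Finset ℕ), roughP (G e h) b K s r A).ncard ≤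
      ∑ h ∈ range (H + 1), (roughP (G e h) b K s r A).ncard := by
    have : ∀ S : Finset ℕ, (⋃ h ∈ S, roughP (G e h) b K s r A).ncard ≤
        ∑ h ∈ S, (roughP (G e h) b K s r A).ncard := by
      intro S
      induction S using Finset.induction_on with
      | empty => simp
      | insert a S ha ih =>
        rw [sum_insert ha, Finset.set_biUnion_insert]
        exact (Set.ncard_union_le _ _).trans (Nat.add_le_add_left ih _)
    exact this _
  rw [Set.ncard_coe_finset, card_range] at hn1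
  -- the polynomial values are small
  have hb3 : ∀ h, h < K ^ k → ((roughP (G e h) b K s r A).ncard : ℝ) ≤ T * NA K A / (K : ℝ) ^ k := by
    intro h hh
    have hsize : ∀ m : ℕ, b ^ K * s ≤ m → m < b ^ K * (s + 1) →
        ((G e h).eval (m : ℤ)).natAbs ≤ b ^ ((D + 3) * k * K) := by
      intro m _ hm
      rw [G_eval, ← Int.natAbsHom_apply, map_prod]
      have e1 : b ^ ((D + 3) * k * K) = ∏ _i : Fin k, b ^ ((D + 3) * K) := by
        rw [prod_const, card_univ, Fintype.card_fin, ← pow_mul]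
        congr 1
        ring
      rw [e1]
      refine prod_le_prod (fun i _ => Nat.zero_le _) fun i _ => ?_
      rw [Int.natAbsHom_apply]
      have h2 : e i ≤ ∑ i, e i := single_le_sum (f := e) (fun _ _ => Nat.zero_le _) (mem_univ i)
      have h3 : ((m : ℤ) + ((e i : ℤ) - h)).natAbs ≤ m + e i + h := by omega
      refine h3.trans ?_
      have h4 : m + e i + h ≤ b ^ K * (s + 2) := by
        have : b ^ K * (s + 2) = b ^ K * (s + 1) + b ^ K := by ring
        omega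
      refine h4.trans ?_
      have e2 : b ^ ((D + 3) * K) = b ^ K * (b ^ K * (b ^ K * b ^ (D * K))) := by
        rw [← pow_add, ← pow_add, ← pow_add]
        congr 1
        ring
      rw [e2]
      apply Nat.mul_le_mul_left
      have h5 : 1 ≤ b ^ (D * K) := Nat.one_le_pow _ _ (by omega)
      have h6 : 2 ≤ b ^ K := by omega
      calc s + 2 ≤ 3 * b ^ (D * K) := by omega
        _ ≤ (b ^ K * b ^ K) * b ^ (D * K) := Nat.mul_le_mul_right _ (by nlinarith)
        _ = b ^ K * (b ^ K * b ^ (D * K)) := by ring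
    have hprod' : (b : ℝ) ^ K ≤ Real.exp (c * K) * NA K A := by
      refine hprod.trans (mul_le_mul_of_nonneg_right (Real.exp_le_exp.2 ?_) hNA)
      exact mul_le_mul_of_nonneg_right (min_le_left _ _) hK0.le
    have hadm' : ∀ p : ℕ, p.Prime → ∃ n : ℕ, ¬ (p : ℤ) ∣ (G e h).eval (n : ℤ) := by
      intro p hp
      obtain ⟨n, hn⟩ := hadm p hp
      refine ⟨n + h, fun hd => ?_⟩
      rw [G_eval, (Nat.prime_iff_prime_int.1 hp).dvd_finsetProd_iff] at hd
      obtain ⟨i, -, hi⟩ := hd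
      apply hn i
      have h2 : ((n + h : ℕ) : ℤ) + ((e i : ℤ) - h) = ((n + e i : ℕ) : ℤ) := by
        push_cast
        ring
      rw [h2, Int.natCast_dvd_natCast] at hi
      exact hi
    obtain ⟨-, h2⟩ := hK (G e h) (G_deg e h) hadm' s hsize A hA hprod'
    refine h2.trans ?_
    have hb3 : 3 ≤ b ^ K := by
      calc 3 ≤ 2 ^ 2 := by norm_num
        _ ≤ 2 ^ K := Nat.pow_le_pow_right (by norm_num) hK2
        _ ≤ b ^ K := Nat.pow_le_pow_left hb K
    have h3 := hV (b ^ K) hb3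
    rw [Nat.cast_pow, Real.log_pow, mul_pow] at h3
    rw [V_shift]
    calc C * NA K A * V (G e 0) (b ^ K) ≤ C * NA K A * (B / ((K : ℝ) ^ k * Real.log b ^ k)) :=
          mul_le_mul_of_nonneg_left h3 (by positivity)
      _ = T * NA K A / (K : ℝ) ^ k := by
        rw [hT]
        field_simp
  have hsum : ((∑ h ∈ range (H + 1), (roughP (G e h) b K s r A).ncard : ℕ) : ℝ) ≤
      2 * H * (T * NA K A / (K : ℝ) ^ k) := by
    rw [Nat.cast_sum]
    refine (sum_le_card_nsmul _ _ _ fun h hh => hb3 h (by rw [mem_range] at hh; omega)).trans ?_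
    rw [card_range, nsmul_eq_mul]
    apply mul_le_mul_of_nonneg_right _ (by positivity)
    push_cast
    linarith
  -- the small integers
  have hsmall : ((K ^ k + Nat.sqrt (b ^ K) + 1 : ℕ) : ℝ) ≤ NA K A / (K : ℝ) ^ k := by
    obtain ⟨y, hy⟩ : ∃ y : ℝ, y = K * Real.log b := ⟨_, rfl⟩
    have hbK : (b : ℝ) ^ K = Real.exp y := by
      rw [hy, ← Real.rpow_natCast, Real.rpow_def_of_pos (by linarith), mul_comm]
    have hy0 : 0 ≤ y := by rw [hy]; positivity
    have hyK : K * (Real.log 2 / 4) ≤ y / 4 := by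
      rw [hy]
      nlinarith
    have hsq : (Nat.sqrt (b ^ K) : ℝ) ≤ Real.exp (y / 2) := by
      have h2 : (Nat.sqrt (b ^ K) : ℝ) ^ 2 ≤ (b : ℝ) ^ K := by
        exact_mod_cast Nat.sqrt_le' (b ^ K)
      have h3 : (Nat.sqrt (b ^ K) : ℝ) ^ 2 ≤ Real.exp (y / 2) ^ 2 := by
        rw [← Real.exp_nat_mul]
        refine h2.trans (le_of_eq ?_)
        rw [hbK]
        congr 1
        push_cast
        ring
      exact le_of_sq_le_sq h3 (Real.exp_pos _).le
    have hP : Real.exp (3 * y / 4) ≤ NA K A := by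
      have h2 : Real.exp y ≤ Real.exp (y / 4) * NA K A := by
        rw [← hbK]
        refine hprod.trans (mul_le_mul_of_nonneg_right (Real.exp_le_exp.2 ?_) hNA)
        calc min c (Real.log 2 / 4) * K ≤ Real.log 2 / 4 * K :=
              mul_le_mul_of_nonneg_right (min_le_right _ _) hK0.le
          _ ≤ y / 4 := by linarith
      have h3 : Real.exp y = Real.exp (y / 4) * Real.exp (3 * y / 4) := by
        rw [← Real.exp_add]
        congr 1
        ring
      rw [h3] at h2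
      exact le_of_mul_le_mul_left h2 (Real.exp_pos _)
    have h2 : 3 * (K : ℝ) ^ (2 * k) ≤ Real.exp (y / 4) := hg.trans (Real.exp_le_exp.2 hyK)
    have h3 : (1 : ℝ) ≤ Real.exp (y / 2) := Real.one_le_exp (by linarith)
    have h4 : (1 : ℝ) ≤ (K : ℝ) ^ k := one_le_pow₀ hK1
    rw [le_div_iff₀ hKk]
    push_cast
    have h5 : ((K : ℝ) ^ k + Nat.sqrt (b ^ K) + 1) * (K : ℝ) ^ k ≤ 3 * (K : ℝ) ^ (2 * k) * Real.exp (y / 2) := by
      have h6 : (K : ℝ) ^ (2 * k) = (K : ℝ) ^ k * (K : ℝ) ^ k := by rw [← pow_add]; congr 1; ring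
      rw [h6]
      obtain ⟨u, hu⟩ : ∃ u : ℝ, u = (K : ℝ) ^ k := ⟨_, rfl⟩
      obtain ⟨v, hv⟩ : ∃ v : ℝ, v = Real.exp (y / 2) := ⟨_, rfl⟩
      obtain ⟨w, hw⟩ : ∃ w : ℝ, w = (Nat.sqrt (b ^ K) : ℝ) := ⟨_, rfl⟩
      rw [← hu, ← hv, ← hw]
      rw [← hu] at h4
      rw [← hv] at h3
      rw [← hv, ← hw] at hsq
      have h7 : u + w + 1 ≤ 3 * (u * v) := by nlinarith
      nlinarith
    refine h5.trans (le_trans ?_ hP)
    calc 3 * (K : ℝ) ^ (2 * k) * Real.exp (y / 2) ≤ Real.exp (y / 4) * Real.exp (y / 2) :=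
          mul_le_mul_of_nonneg_right h2 (Real.exp_pos _).le
      _ = Real.exp (3 * y / 4) := by
        rw [← Real.exp_add]
        congr 1
        ring
  have hfinal : (({m | m ∈ Dig b K s A ∧ ∃ h, h ≤ H ∧ h ≤ m ∧ ∀ i, (m - h + e i).Prime}.ncard : ℕ) : ℝ) ≤
      ((K ^ k + Nat.sqrt (b ^ K) + 1 : ℕ) : ℝ) +
        ((∑ h ∈ range (H + 1), (roughP (G e h) b K s r A).ncard : ℕ) : ℝ) := by
    exact_mod_cast hn1.trans (Nat.add_le_add_left hn2 _)
  refine hfinal.trans ((add_le_add hsmall hsum).trans ?_)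
  have h2 : NA K A / (K : ℝ) ^ k ≤ H * (NA K A / (K : ℝ) ^ k) := by
    have : (0 : ℝ) ≤ NA K A / (K : ℝ) ^ k := by positivity
    nlinarith
  calc NA K A / (K : ℝ) ^ k + 2 * H * (T * NA K A / (K : ℝ) ^ k) ≤
      H * (NA K A / (K : ℝ) ^ k) + 2 * H * (T * NA K A / (K : ℝ) ^ k) := by linarith
    _ = (1 + 2 * T) * H * NA K A / (K : ℝ) ^ k := by ring

end Pool.Agent.U464.GD
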